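import Pool.Agent.Lib_helper39.AQM.W.All
import Pool.Agent.Lib_helper39.AQM.AB

/-! AQM, block MM1 (helper96): parallel products of prime elements -/

set_option autoImplicit false

namespace Pool.Agent.AQM

open Pool.Agent.MQ Pool.Agent.T2 Filter Topology MeasureTheory

section mm1
variable {b c : ℤ}

theorem mm1_dt_ml (u v w : El) : dt (ml b c u v) (ml b c u w) = nm b c u * dt v w := by
  simp only [dt, ml, nm]; ring

theorem mm1_dt_sm_left (k : ℕ) (v w : El) : dt (sm k v) w = k * dt v w := by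
  simp only [dt, sm]; ring

theorem mm1_dt_sm_right (k : ℕ) (v w : El) : dt v (sm k w) = k * dt v w := by
  simp only [dt, sm]; ring

theorem mm1_dt_anti (v w : El) : dt v w = -dt w v := by
  simp only [dt]; ring

theorem mm1_one_ml (v : El) : ml b c (1, 0) v = v := by
  rw [ml_comm, ml_one]

theorem mm1_sm_ml (k : ℕ) (v w : El) : ml b c (sm k v) w = sm k (ml b c v w) := by
  rw [ml_comm, sba_ml_sm, ml_comm]

theorem mm1_left_comm (u v w : El) : ml b c u (ml b c v w) = ml b c v (ml b c u w) := by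
  rw [← ml_assoc, ← ml_assoc, ml_comm b c u v]

variable {π : ℕ → El}

theorem mm1_pr_succ {l : ℕ} (q : Fin (l + 1) → ℕ) (w : El) :
    pr b c π q w = ml b c (π (q 0)) (pr b c π (fun i => q i.succ) w) := rfl

theorem mm1_pr_ml {l : ℕ} (q : Fin l → ℕ) (a w : El) :
    pr b c π q (ml b c a w) = ml b c a (pr b c π q w) := by
  induction l with
  | zero => rfl
  | succ l ih => rw [mm1_pr_succ, mm1_pr_succ, ih, mm1_left_comm]

theorem mm1_pr_sm {l : ℕ} (q : Fin l → ℕ) (k : ℕ) (w : El) :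
    pr b c π q (sm k w) = sm k (pr b c π q w) := by
  induction l with
  | zero => rfl
  | succ l ih => rw [mm1_pr_succ, mm1_pr_succ, ih, sba_ml_sm]

theorem mm1_pr_remove {l : ℕ} (q : Fin (l + 1) → ℕ) (j : Fin (l + 1)) (w : El) :
    pr b c π q w = ml b c (π (q j)) (pr b c π (fun i => q (j.succAbove i)) w) := by
  induction l with
  | zero =>
    have hj : j = 0 := by
      ext
      simp only [Fin.val_zero]
      omega
    subst hj
    rfl
  | succ l ih =>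
    refine Fin.cases ?_ ?_ j
    · rw [mm1_pr_succ]
      rfl
    · intro k
      rw [mm1_pr_succ, ih (fun i => q i.succ) k, mm1_pr_succ (fun i => q (k.succ.succAbove i)),
        Fin.succ_succAbove_zero, mm1_left_comm]
      simp only [Fin.succ_succAbove_succ]

/-! ### the units of the window -/

variable (A : Ang b c)

/-- units which do not change the representatives -/
def mm1_G (o : El) : Prop := nm b c o = 1 ∧ ∀ z, 0 < nm b c z → A.rp (ml b c o z) = A.rp z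

variable {A}

theorem mm1_G_one : mm1_G A (1, 0) := by
  refine ⟨by simp [nm], fun z _ => by rw [mm1_one_ml]⟩

theorem mm1_G_mul {o o' : El} (h : mm1_G A o) (h' : mm1_G A o') : mm1_G A (ml b c o o') := by
  refine ⟨by rw [nm_ml, h.1, h'.1, one_mul], fun z hz => ?_⟩
  rw [ml_assoc, h.2 _ (by rw [nm_ml, h'.1, one_mul]; exact hz), h'.2 z hz]

theorem mm1_G_cj {o : El} (h : mm1_G A o) : mm1_G A (cj b o) := by
  refine ⟨by rw [nm_cj, h.1], fun z hz => ?_⟩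
  have h1 : 0 < nm b c (ml b c (cj b o) z) := by
    rw [nm_ml, nm_cj, h.1, one_mul]
    exact hz
  rw [← h.2 _ h1, sba_ml_cj h.1]

theorem mm1_rp {v : El} (hv : 0 < nm b c v) : ∃ o : El, mm1_G A o ∧ A.rp v = ml b c o v := by
  obtain ⟨o, h1, h2, h3⟩ := A.rp_unit v hv
  exact ⟨o, ⟨h1, h2⟩, h3⟩

variable (A)

/-- parallel up to units -/
def mm1_R (U V : El) : Prop := ∃ o : El, mm1_G A o ∧ dt (ml b c o U) V = 0

variable {A}

theorem mm1_R_symm {U V : El} (h : mm1_R A U V) : mm1_R A V U := by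
  obtain ⟨o, ho, h⟩ := h
  refine ⟨cj b o, mm1_G_cj ho, ?_⟩
  have e : U = ml b c (cj b o) (ml b c o U) := (sba_cj_ml ho.1).symm
  conv_lhs => rw [e]
  rw [mm1_dt_ml, mm1_dt_anti, h]
  ring

theorem mm1_R_cancel {π U V : El} (hπ : nm b c π ≠ 0) (h : mm1_R A (ml b c π U) (ml b c π V)) :
    mm1_R A U V := by
  obtain ⟨o, ho, h⟩ := h
  refine ⟨o, ho, ?_⟩
  rw [mm1_left_comm, mm1_dt_ml] at h
  exact (mul_eq_zero.1 h).resolve_left hπ

theorem mm1_R_sm_left {k : ℕ} (hk : 1 ≤ k) {U V : El} : mm1_R A (sm k U) V ↔ mm1_R A U V := by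
  have hk0 : ((k : ℕ) : ℤ) ≠ 0 := by
    have : k ≠ 0 := by omega
    exact_mod_cast this
  constructor
  · rintro ⟨o, ho, h⟩
    refine ⟨o, ho, ?_⟩
    rw [sba_ml_sm, mm1_dt_sm_left] at h
    exact (mul_eq_zero.1 h).resolve_left hk0
  · rintro ⟨o, ho, h⟩
    refine ⟨o, ho, ?_⟩
    rw [sba_ml_sm, mm1_dt_sm_left, h, mul_zero]

theorem mm1_R_sm_right {k : ℕ} (hk : 1 ≤ k) {U V : El} : mm1_R A U (sm k V) ↔ mm1_R A U V := by
  have hk0 : ((k : ℕ) : ℤ) ≠ 0 := by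
    have : k ≠ 0 := by omega
    exact_mod_cast this
  constructor
  · rintro ⟨o, ho, h⟩
    refine ⟨o, ho, ?_⟩
    rw [mm1_dt_sm_right] at h
    exact (mul_eq_zero.1 h).resolve_left hk0
  · rintro ⟨o, ho, h⟩
    refine ⟨o, ho, ?_⟩
    rw [mm1_dt_sm_right, h, mul_zero]

theorem mm1_R_unit_left {o U V : El} (ho : mm1_G A o) (h : mm1_R A U V) :
    mm1_R A (ml b c o U) V := by
  obtain ⟨o', ho', h⟩ := h
  refine ⟨ml b c o' (cj b o), mm1_G_mul ho' (mm1_G_cj ho), ?_⟩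
  rw [ml_assoc, sba_cj_ml ho.1]
  exact h

theorem mm1_R_unit_right {o U V : El} (ho : mm1_G A o) (h : mm1_R A U V) :
    mm1_R A U (ml b c o V) := mm1_R_symm (mm1_R_unit_left ho (mm1_R_symm h))

/-! ### the trichotomy -/

variable {M k₀ : ℕ} {B : Finset ℕ} {r : El}

theorem mm1_other (hB : TP A M B k₀ r π) {p p' : ℕ} (hp : p ∈ B) (hp' : p' ∈ B) (h : p' ≠ p) :
    ¬ (p : ℤ) ∣ nm b c (π p') := by
  rw [hB.nm p' hp']
  intro hd
  have hd' : p ∣ k₀ * p' := by exact_mod_cast hd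
  rcases (hB.prime p hp).dvd_mul.1 hd' with h1 | h1
  · exact ndk A hB hp h1
  · exact h ((Nat.prime_dvd_prime_iff_eq (hB.prime p hp) (hB.prime p' hp')).1 h1).symm

theorem mm1_pnm (hB : TP A M B k₀ r π) {p : ℕ} (hp : p ∈ B) : (p : ℤ) ∣ nm b c (π p) := by
  rw [hB.nm p hp]
  exact dvd_mul_left _ _

theorem mm1_dv_cj {p : ℕ} {v : El} : dv p (cj b v) ↔ dv p v := by
  unfold dv cj
  simp only [dvd_neg]
  constructor
  · rintro ⟨h1, h2⟩
    refine ⟨?_, h2⟩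
    have e : v.1 = v.1 + b * v.2 - b * v.2 := by ring
    rw [e]
    exact dvd_sub h1 (h2.mul_left _)
  · rintro ⟨h1, h2⟩
    exact ⟨dvd_add h1 (h2.mul_left _), h2⟩

theorem mm1_not_Dv (hB : TP A M B k₀ r π) {p : ℕ} (hp : p ∈ B) {v : El}
    (h : ¬ (p : ℤ) ∣ nm b c v) : ¬ Dv p (π p) v := fun hd =>
  h (Dv_of_nm (hB.prime p hp) (mm1_pnm hB hp) (Dv_not_dv A hB hp) hd)

theorem mm1_not_Dv' (hB : TP A M B k₀ r π) {p : ℕ} (hp : p ∈ B) {v : El}
    (h : ¬ (p : ℤ) ∣ nm b c v) : ¬ Dv p (cj b (π p)) v := fun hd =>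
  h (Dv_of_nm (hB.prime p hp) (by rw [nm_cj]; exact mm1_pnm hB hp)
    (fun h1 => Dv_not_dv A hB hp (mm1_dv_cj.1 h1)) hd)

theorem mm1_pr_Dv (hB : TP A M B k₀ r π) {p : ℕ} (hp : p ∈ B) {l : ℕ} {q : Fin l → ℕ}
    (hq : ∀ i, q i ∈ B) (hne : ∀ i, q i ≠ p) {w : El} (hw : ¬ Dv p (π p) w) :
    ¬ Dv p (π p) (pr b c π q w) := by
  induction l with
  | zero => exact hw
  | succ l ih =>
    rw [mm1_pr_succ, Dv_ml A hB hp]
    rintro (h | h)
    · exact mm1_not_Dv hB hp (mm1_other hB hp (hq 0) (hne 0)) h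
    · exact ih (fun i => hq _) (fun i => hne _) h

theorem mm1_pr_Dv' (hB : TP A M B k₀ r π) {p : ℕ} (hp : p ∈ B) {l : ℕ} {q : Fin l → ℕ}
    (hq : ∀ i, q i ∈ B) {w : El} (hw : ¬ Dv p (cj b (π p)) w) :
    ¬ Dv p (cj b (π p)) (pr b c π q w) := by
  induction l with
  | zero => exact hw
  | succ l ih =>
    rw [mm1_pr_succ, Dv_ml' A hB hp]
    rintro (h | h)
    · by_cases he : q 0 = p
      · rw [he] at h
        exact Dv_not_cj A hB hp h
      · exact mm1_not_Dv' hB hp (mm1_other hB hp (hq 0) he) h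
    · exact ih (fun i => hq _) h

theorem mm1_cases (hB : TP A M B k₀ r π) {p : ℕ} (hp : p ∈ B) {l l' : ℕ} {q : Fin l → ℕ}
    {q' : Fin l' → ℕ} (hq : ∀ i, q i ∈ B) (hq' : ∀ i, q' i ∈ B) {w w' : El}
    (h : mm1_R A (ml b c (π p) (pr b c π q w)) (pr b c π q' w')) :
    Dv p (cj b (π p)) w ∨ (∃ j, q' j = p) ∨ Dv p (π p) w' := by
  by_contra hcon
  push Not at hcon
  obtain ⟨h1, h2, h3⟩ := hcon
  obtain ⟨o, ho, h⟩ := h
  have hpp : Prime (p : ℤ) := Nat.prime_iff_prime_int.1 (hB.prime p hp)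
  have hV := mm1_pr_Dv hB hp hq' h2 h3
  have hX : Dv p (π p) (ml b c o (ml b c (π p) (pr b c π q w))) :=
    (Dv_ml A hB hp _ _).2 (Or.inr ((Dv_ml A hB hp _ _).2 (Or.inl (Dv_self p (π p)))))
  set X := ml b c o (ml b c (π p) (pr b c π q w)) with hXd
  set V := pr b c π q' w'
  have e1 : dt V (π p) * X.1 = dt X (π p) * V.1 - dt X V * (π p).1 := by
    simp only [dt]; ring
  have e2 : dt V (π p) * X.2 = dt X (π p) * V.2 - dt X V * (π p).2 := by
    simp only [dt]; ring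
  rw [h, zero_mul, sub_zero] at e1 e2
  have hd : dv p X := by
    constructor
    · have : (p : ℤ) ∣ dt V (π p) * X.1 := by
        rw [e1]
        exact hX.mul_right _
      exact (hpp.dvd_or_dvd this).resolve_left hV
    · have : (p : ℤ) ∣ dt V (π p) * X.2 := by
        rw [e2]
        exact hX.mul_right _
      exact (hpp.dvd_or_dvd this).resolve_left hV
  have hc := ((Dv_dv A hB hp X).1 hd).2
  rw [hXd, Dv_ml' A hB hp] at hc
  rcases hc with hc | hc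
  · refine mm1_not_Dv' hB hp ?_ hc
    rw [ho.1]
    exact hpp.not_dvd_one
  · rw [Dv_ml' A hB hp] at hc
    rcases hc with hc | hc
    · exact Dv_not_cj A hB hp hc
    · exact mm1_pr_Dv' hB hp hq h1 hc

/-! ### the cofactors -/

variable (A)

/-- division by `k₀` in the window -/
noncomputable def mm1_f (k₀ : ℕ) (a v : El) : El :=
  ((A.rp (ml b c a v)).1 / (k₀ : ℤ), (A.rp (ml b c a v)).2 / (k₀ : ℤ))

variable {A}

theorem mm1_f_eq {k₀ : ℕ} (hk : 1 ≤ k₀) {a v w : El} (hw : A.wd w) (ha : 0 < nm b c a)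
    (hv : 0 < nm b c v) (h : ml b c a v = sm k₀ w) : mm1_f A k₀ a (A.rp v) = w := by
  have h1 : A.rp (ml b c a (A.rp v)) = sm k₀ w := by
    rw [ml_comm, AB.rp_ml_rp A hv ha, ml_comm, h]
    exact A.rp_self _ ((A.wd_sm _ _ hk).2 hw)
  unfold mm1_f
  rw [h1]
  unfold sm
  have hk0 : ((k₀ : ℕ) : ℤ) ≠ 0 := by
    have : k₀ ≠ 0 := by omega
    exact_mod_cast this
  simp only
  rw [Int.mul_ediv_cancel_left _ hk0, Int.mul_ediv_cancel_left _ hk0]

theorem mm1_pnm_pos (hB : TP A M B k₀ r π) {p : ℕ} (hp : p ∈ B) : 0 < nm b c (π p) := by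
  rw [hB.nm p hp]
  have h1 := (hB.prime p hp).pos
  have h2 := hB.k1
  have : 0 < k₀ * p := Nat.mul_pos h2 h1
  exact_mod_cast this

/-- the cofactor is in the window, divisible only by primes of `M` -/
theorem mm1_cof_mem (hB : TP A M B k₀ r π) {p : ℕ} (hp : p ∈ B) {x : ℝ} {w v a : El}
    (hw : w ∈ PS A M (fun _ => True) x) (h1 : ml b c a v = sm k₀ w)
    (h2 : (p : ℤ) * nm b c v = k₀ * nm b c w) :
    0 < nm b c v ∧ A.rp v ∈ PS A M (fun _ => True) (k₀ * x / p) := by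
  rw [mem_PS] at hw
  obtain ⟨hw1, hw2, -, hw3⟩ := hw
  have hp0 : 0 < p := (hB.prime p hp).pos
  have hpZ : (0 : ℤ) < p := by exact_mod_cast hp0
  have hk0 : (0 : ℤ) < k₀ := by
    have := hB.k1
    exact_mod_cast this
  have hnw := A.wd_nm _ hw1
  have hnv : 0 < nm b c v := by
    by_contra hc
    push Not at hc
    have h3 : (p : ℤ) * nm b c v ≤ 0 := mul_nonpos_of_nonneg_of_nonpos hpZ.le hc
    have h4 : 0 < (k₀ : ℤ) * nm b c w := mul_pos hk0 hnw
    linarith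
  refine ⟨hnv, ?_⟩
  rw [mem_PS]
  obtain ⟨o, ho, hov⟩ := mm1_rp (A := A) hnv
  refine ⟨A.rp_wd v hnv, ?_, trivial, ?_⟩
  · rw [AB.rp_nm A hnv]
    have hpR : (0 : ℝ) < p := by exact_mod_cast hp0
    rw [le_div_iff₀ hpR]
    have h3 : (p : ℝ) * (nm b c v : ℝ) = k₀ * (nm b c w : ℝ) := by exact_mod_cast h2
    have h4 : (k₀ : ℝ) * (nm b c w : ℝ) ≤ k₀ * x :=
      mul_le_mul_of_nonneg_left hw2 (Nat.cast_nonneg _)
    linarith
  · intro l hl hd
    have hlp : Prime (l : ℤ) := Nat.prime_iff_prime_int.1 hl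
    have mlv : ∀ a z : El, dv l z → dv l (ml b c a z) := by
      rintro a z ⟨h1, h2⟩
      unfold ml
      refine ⟨dvd_sub (h1.mul_left _) (h2.mul_left _), ?_⟩
      exact dvd_add (dvd_add (h2.mul_left _) (h1.mul_left _)) (h2.mul_left _)
    have hdv : dv l v := by
      have := mlv (cj b o) _ hd
      rw [hov, sba_cj_ml ho.1] at this
      exact this
    have h3 := mlv a v hdv
    rw [h1] at h3
    by_cases hlk : l ∣ k₀
    · exact hlk.trans hB.kM
    · apply hw3 l hl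
      have hlk' : ¬ (l : ℤ) ∣ (k₀ : ℤ) := by
        intro h
        exact hlk (by exact_mod_cast h)
      exact ⟨(hlp.dvd_or_dvd h3.1).resolve_left hlk', (hlp.dvd_or_dvd h3.2).resolve_left hlk'⟩

theorem mm1_div_cj (hB : TP A M B k₀ r π) {p : ℕ} (hp : p ∈ B) {x : ℝ} {w : El}
    (hw : w ∈ PS A M (fun _ => True) x) (hd : Dv p (cj b (π p)) w) :
    ∃ v ∈ PS A M (fun _ => True) (k₀ * x / p), mm1_f A k₀ (cj b (π p)) v = w ∧
      ∃ o v₁ : El, mm1_G A o ∧ v = ml b c o v₁ ∧ ml b c (π p) w = sm p v₁ := by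
  obtain ⟨v₁, e1, e2, e3⟩ := Dv_cof' A hB hp hd
  obtain ⟨h1, h2⟩ := mm1_cof_mem hB hp hw e2 e3
  obtain ⟨o, ho, hov⟩ := mm1_rp (A := A) h1
  refine ⟨A.rp v₁, h2, ?_, o, v₁, ho, hov, e1⟩
  exact mm1_f_eq hB.k1 ((mem_PS A).1 hw).1 (by rw [nm_cj]; exact mm1_pnm_pos hB hp) h1 e2

theorem mm1_div_pi (hB : TP A M B k₀ r π) {p : ℕ} (hp : p ∈ B) {x : ℝ} {w : El}
    (hw : w ∈ PS A M (fun _ => True) x) (hd : Dv p (π p) w) :
    ∃ v ∈ PS A M (fun _ => True) (k₀ * x / p), mm1_f A k₀ (π p) v = w ∧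
      ∃ o v₁ : El, mm1_G A o ∧ v = ml b c o v₁ ∧ ml b c (π p) v₁ = sm k₀ w := by
  obtain ⟨v₁, e1, e2, e3⟩ := Dv_cof A hB hp hd
  obtain ⟨h1, h2⟩ := mm1_cof_mem hB hp hw e2 e3
  obtain ⟨o, ho, hov⟩ := mm1_rp (A := A) h1
  refine ⟨A.rp v₁, h2, ?_, o, v₁, ho, hov, e2⟩
  exact mm1_f_eq hB.k1 ((mem_PS A).1 hw).1 (mm1_pnm_pos hB hp) h1 e2

/-! ### the recurrence -/

open Classical in
/-- pairs of products which are parallel up to units -/
noncomputable def mm1_P (A : Ang b c) (M : ℕ) (B : Finset ℕ) (π : ℕ → El) (l l' : ℕ)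
    (x x' : ℝ) : Finset (((Fin l → ℕ) × El) × ((Fin l' → ℕ) × El)) :=
  ((Fintype.piFinset (fun _ : Fin l => B) ×ˢ PS A M (fun _ => True) x) ×ˢ
    (Fintype.piFinset (fun _ : Fin l' => B) ×ˢ PS A M (fun _ => True) x')).filter (fun t =>
      mm1_R A (pr b c π t.1.1 t.1.2) (pr b c π t.2.1 t.2.2))

theorem mem_mm1_P {l l' : ℕ} {x x' : ℝ} {t : ((Fin l → ℕ) × El) × ((Fin l' → ℕ) × El)} :
    t ∈ mm1_P A M B π l l' x x' ↔ ((∀ i, t.1.1 i ∈ B) ∧ t.1.2 ∈ PS A M (fun _ => True) x) ∧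
      ((∀ i, t.2.1 i ∈ B) ∧ t.2.2 ∈ PS A M (fun _ => True) x') ∧
      mm1_R A (pr b c π t.1.1 t.1.2) (pr b c π t.2.1 t.2.2) := by
  unfold mm1_P
  simp only [Finset.mem_filter, Finset.mem_product, Fintype.mem_piFinset]
  tauto

theorem mm1_sub (l l' : ℕ) (x x' : ℝ) : ParD A M B π l l' x x' ⊆ mm1_P A M B π l l' x x' := by
  classical
  intro t ht
  unfold ParD at ht
  unfold mm1_P
  rw [Finset.mem_filter] at ht ⊢
  exact ⟨ht.1, (1, 0), mm1_G_one, by rw [mm1_one_ml]; exact ht.2⟩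

theorem mm1_swap (l l' : ℕ) (x x' : ℝ) :
    (mm1_P A M B π l l' x x').card = (mm1_P A M B π l' l x' x).card := by
  apply Finset.card_bij (fun t _ => (t.2, t.1))
  · intro t ht
    rw [mem_mm1_P] at ht ⊢
    exact ⟨ht.2.1, ht.1, mm1_R_symm ht.2.2⟩
  · intro t _ t' _ h
    simp only [Prod.mk.injEq] at h
    exact Prod.ext h.2 h.1
  · intro t ht
    refine ⟨(t.2, t.1), ?_, rfl⟩
    rw [mem_mm1_P] at ht ⊢
    exact ⟨ht.2.1, ht.1, mm1_R_symm ht.2.2⟩

/-- case (a): the conjugate ideal divides `w` -/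
theorem mm1_case_a (hB : TP A M B k₀ r π) {l l' : ℕ} {x : ℝ} {q : Fin (l + 1) → ℕ}
    {q' : Fin l' → ℕ} {w w' : El} (hq : ∀ i, q i ∈ B)
    (hw : w ∈ PS A M (fun _ => True) x) (hR : mm1_R A (pr b c π q w) (pr b c π q' w'))
    (h : Dv (q 0) (cj b (π (q 0))) w) :
    ∃ v ∈ PS A M (fun _ => True) (k₀ * x / q 0), mm1_f A k₀ (cj b (π (q 0))) v = w ∧
      mm1_R A (pr b c π (fun i => q i.succ) v) (pr b c π q' w') := by
  obtain ⟨v, hv, hf, o, v₁, ho, hov, e⟩ := mm1_div_cj hB (hq 0) hw h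
  refine ⟨v, hv, hf, ?_⟩
  rw [mm1_pr_succ, ← mm1_pr_ml, e, mm1_pr_sm,
    mm1_R_sm_left (hB.prime _ (hq 0)).one_le] at hR
  rw [hov, mm1_pr_ml]
  exact mm1_R_unit_left ho hR

/-- case (c): the ideal divides `w'` -/
theorem mm1_case_c (hB : TP A M B k₀ r π) {l l' : ℕ} {x' : ℝ} {q : Fin (l + 1) → ℕ}
    {q' : Fin l' → ℕ} {w w' : El} (hq : ∀ i, q i ∈ B)
    (hw' : w' ∈ PS A M (fun _ => True) x') (hR : mm1_R A (pr b c π q w) (pr b c π q' w'))
    (h : Dv (q 0) (π (q 0)) w') :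
    ∃ v ∈ PS A M (fun _ => True) (k₀ * x' / q 0), mm1_f A k₀ (π (q 0)) v = w' ∧
      mm1_R A (pr b c π (fun i => q i.succ) w) (pr b c π q' v) := by
  obtain ⟨v, hv, hf, o, v₁, ho, hov, e⟩ := mm1_div_pi hB (hq 0) hw' h
  refine ⟨v, hv, hf, ?_⟩
  have h1 : mm1_R A (pr b c π q w) (sm k₀ (pr b c π q' w')) := (mm1_R_sm_right hB.k1).2 hR
  rw [← mm1_pr_sm, ← e, mm1_pr_ml, mm1_pr_succ] at h1
  have h2 := mm1_R_cancel (mm1_pnm_pos hB (hq 0)).ne' h1
  rw [hov, mm1_pr_ml]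
  exact mm1_R_unit_right ho h2

/-- the recurrence, second index zero -/
theorem mm1_rec_zero (hB : TP A M B k₀ r π) (l : ℕ) (x x' : ℝ) :
    (mm1_P A M B π (l + 1) 0 x x').card ≤ ∑ p ∈ B, ((mm1_P A M B π l 0 (k₀ * x / p) x').card +
      (mm1_P A M B π l 0 x (k₀ * x' / p)).card) := by
  classical
  have hcov : mm1_P A M B π (l + 1) 0 x x' ⊆ B.biUnion (fun p =>
      (mm1_P A M B π l 0 (k₀ * x / p) x').image (fun t =>
        ((Fin.cons p t.1.1, mm1_f A k₀ (cj b (π p)) t.1.2), t.2)) ∪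
      (mm1_P A M B π l 0 x (k₀ * x' / p)).image (fun t =>
        ((Fin.cons p t.1.1, t.1.2), (t.2.1, mm1_f A k₀ (π p) t.2.2)))) := by
    rintro ⟨⟨q, w⟩, ⟨q', w'⟩⟩ ht
    rw [mem_mm1_P] at ht
    obtain ⟨⟨hq, hw⟩, ⟨hq', hw'⟩, hsim⟩ := ht
    simp only at hq hw hq' hw' hsim
    rw [Finset.mem_biUnion]
    refine ⟨q 0, hq 0, ?_⟩
    rw [Finset.mem_union, Finset.mem_image, Finset.mem_image]
    rcases mm1_cases hB (hq 0) (fun i => hq i.succ) hq' hsim with h | h | h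
    · left
      obtain ⟨v, hv, hf, hR⟩ := mm1_case_a hB hq hw hsim h
      refine ⟨((fun i => q i.succ, v), (q', w')), ?_, ?_⟩
      · rw [mem_mm1_P]
        exact ⟨⟨fun i => hq _, hv⟩, ⟨hq', hw'⟩, hR⟩
      · simp only [Prod.mk.injEq, and_true]
        exact ⟨Fin.cons_self_tail q, hf⟩
    · obtain ⟨j, _⟩ := h
      exact j.elim0
    · right
      obtain ⟨v, hv, hf, hR⟩ := mm1_case_c hB hq hw' hsim h
      refine ⟨((fun i => q i.succ, w), (q', v)), ?_, ?_⟩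
      · rw [mem_mm1_P]
        exact ⟨⟨fun i => hq _, hw⟩, ⟨hq', hv⟩, hR⟩
      · simp only [Prod.mk.injEq, true_and, and_true]
        exact ⟨Fin.cons_self_tail q, hf⟩
  refine (Finset.card_le_card hcov).trans
    (Finset.card_biUnion_le.trans (Finset.sum_le_sum fun p _ => ?_))
  exact (Finset.card_union_le _ _).trans
    (add_le_add Finset.card_image_le Finset.card_image_le)

/-- the recurrence -/
theorem mm1_rec (hB : TP A M B k₀ r π) (l l' : ℕ) (x x' : ℝ) :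
    (mm1_P A M B π (l + 1) (l' + 1) x x').card ≤
      ∑ p ∈ B, ((mm1_P A M B π l (l' + 1) (k₀ * x / p) x').card +
      ((l' + 1) * (mm1_P A M B π l l' x x').card +
        (mm1_P A M B π l (l' + 1) x (k₀ * x' / p)).card)) := by
  classical
  have hcov : mm1_P A M B π (l + 1) (l' + 1) x x' ⊆ B.biUnion (fun p =>
      (mm1_P A M B π l (l' + 1) (k₀ * x / p) x').image (fun t =>
        ((Fin.cons p t.1.1, mm1_f A k₀ (cj b (π p)) t.1.2), t.2)) ∪
      ((Finset.univ : Finset (Fin (l' + 1))).biUnion (fun j =>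
        (mm1_P A M B π l l' x x').image (fun t =>
        ((Fin.cons p t.1.1, t.1.2), (j.insertNth p t.2.1, t.2.2)))) ∪
      (mm1_P A M B π l (l' + 1) x (k₀ * x' / p)).image (fun t =>
        ((Fin.cons p t.1.1, t.1.2), (t.2.1, mm1_f A k₀ (π p) t.2.2))))) := by
    rintro ⟨⟨q, w⟩, ⟨q', w'⟩⟩ ht
    rw [mem_mm1_P] at ht
    obtain ⟨⟨hq, hw⟩, ⟨hq', hw'⟩, hsim⟩ := ht
    simp only at hq hw hq' hw' hsim
    rw [Finset.mem_biUnion]
    refine ⟨q 0, hq 0, ?_⟩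
    rw [Finset.mem_union, Finset.mem_union, Finset.mem_image, Finset.mem_image,
      Finset.mem_biUnion]
    rcases mm1_cases hB (hq 0) (fun i => hq i.succ) hq' hsim with h | h | h
    · left
      obtain ⟨v, hv, hf, hR⟩ := mm1_case_a hB hq hw hsim h
      refine ⟨((fun i => q i.succ, v), (q', w')), ?_, ?_⟩
      · rw [mem_mm1_P]
        exact ⟨⟨fun i => hq _, hv⟩, ⟨hq', hw'⟩, hR⟩
      · simp only [Prod.mk.injEq, and_true]
        exact ⟨Fin.cons_self_tail q, hf⟩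
    · right; left
      obtain ⟨j, hj⟩ := h
      refine ⟨j, Finset.mem_univ _, ?_⟩
      rw [Finset.mem_image]
      refine ⟨((fun i => q i.succ, w), (fun i => q' (j.succAbove i), w')), ?_, ?_⟩
      · rw [mem_mm1_P]
        refine ⟨⟨fun i => hq _, hw⟩, ⟨fun i => hq' _, hw'⟩, ?_⟩
        simp only
        rw [mm1_pr_succ, mm1_pr_remove q' j, hj] at hsim
        exact mm1_R_cancel (mm1_pnm_pos hB (hq 0)).ne' hsim
      · simp only [Prod.mk.injEq, and_true]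
        refine ⟨Fin.cons_self_tail q, ?_⟩
        rw [← hj]
        exact Fin.insertNth_self_removeNth j q'
    · right; right
      obtain ⟨v, hv, hf, hR⟩ := mm1_case_c hB hq hw' hsim h
      refine ⟨((fun i => q i.succ, w), (q', v)), ?_, ?_⟩
      · rw [mem_mm1_P]
        exact ⟨⟨fun i => hq _, hw⟩, ⟨hq', hv⟩, hR⟩
      · simp only [Prod.mk.injEq, true_and, and_true]
        exact ⟨Fin.cons_self_tail q, hf⟩
  refine (Finset.card_le_card hcov).trans
    (Finset.card_biUnion_le.trans (Finset.sum_le_sum fun p _ => ?_))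
  refine (Finset.card_union_le _ _).trans (add_le_add Finset.card_image_le ?_)
  refine (Finset.card_union_le _ _).trans (add_le_add ?_ Finset.card_image_le)
  refine Finset.card_biUnion_le.trans ?_
  refine (Finset.sum_le_card_nsmul _ _ _ (fun j _ => Finset.card_image_le)).trans ?_
  simp

/-! ### the base case -/

/-- numbers composed of the primes of `M` -/
noncomputable def mm1_F (M J : ℕ) : Finset ℕ :=
  @Finset.filter ℕ (fun j => ∀ l : ℕ, l.Prime → l ∣ j → l ∣ M)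
    (Classical.decPred _) (Finset.Icc 1 J)

theorem mem_mm1_F {M J j : ℕ} : j ∈ mm1_F M J ↔ (1 ≤ j ∧ j ≤ J) ∧
    ∀ l : ℕ, l.Prime → l ∣ j → l ∣ M := by
  unfold mm1_F
  rw [@Finset.mem_filter _ _ (Classical.decPred _), Finset.mem_Icc]

/-- the inverse as a multiplicative function -/
noncomputable def mm1_inv : ℕ →* ℝ where
  toFun n := ((n : ℕ) : ℝ)⁻¹
  map_one' := by simp
  map_mul' m n := by push_cast; rw [mul_inv]

theorem mm1_smooth (M : ℕ) (hM : 1 ≤ M) : ∃ K : ℝ, 1 ≤ K ∧ ∀ J : ℕ,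
    ∑ j ∈ mm1_F M J, 1 / (j : ℝ) ≤ K := by
  classical
  have hlt : ∀ {p : ℕ}, p.Prime → ‖mm1_inv p‖ < 1 := by
    intro p hp
    show ‖((p : ℕ) : ℝ)⁻¹‖ < 1
    have h2 : (1 : ℝ) < p := by exact_mod_cast hp.one_lt
    rw [Real.norm_of_nonneg (by positivity)]
    exact inv_lt_one_of_one_lt₀ h2
  obtain ⟨h1, h2⟩ := EulerProduct.summable_and_hasSum_factoredNumbers_prod_filter_prime_geometric
    hlt M.primeFactors
  have h3 : Summable (fun m : Nat.factoredNumbers M.primeFactors => mm1_inv m) := h2.summable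
  refine ⟨max 1 (∑' m : Nat.factoredNumbers M.primeFactors, mm1_inv m), le_max_left _ _, ?_⟩
  intro J
  refine le_trans ?_ (le_max_right _ _)
  have hmem : ∀ j ∈ mm1_F M J, j ∈ Nat.factoredNumbers M.primeFactors := by
    intro j hj
    rw [mem_mm1_F] at hj
    rw [Nat.mem_factoredNumbers']
    intro p hp hpj
    exact Nat.mem_primeFactors.2 ⟨hp, hj.2 p hp hpj, by omega⟩
  have h4 : ∑ j ∈ mm1_F M J, 1 / (j : ℝ) =
      ∑ m ∈ (mm1_F M J).attach.image (fun j => (⟨j.1, hmem j.1 j.2⟩ :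
        Nat.factoredNumbers M.primeFactors)), mm1_inv m := by
    rw [Finset.sum_image]
    · rw [← Finset.sum_attach]
      refine Finset.sum_congr rfl fun j _ => ?_
      show 1 / ((j.1 : ℕ) : ℝ) = ((j.1 : ℕ) : ℝ)⁻¹
      rw [one_div]
    · intro a _ b _ hab
      have := congrArg (fun t : Nat.factoredNumbers M.primeFactors => (t : ℕ)) hab
      exact Subtype.ext this
  rw [h4]
  exact h3.sum_le_tsum _ (fun m _ => by
    show 0 ≤ (((m : ℕ) : ℕ) : ℝ)⁻¹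
    positivity)

theorem mm1_par {v w : El} (hv : Pm v) (hw : Pm w) (h : dt v w = 0) : v = w ∨ v = -w := by
  have hb := Int.gcd_eq_gcd_ab v.1 v.2
  unfold Pm at hv hw
  rw [hv] at hb
  set s := Int.gcdA v.1 v.2
  set t := Int.gcdB v.1 v.2
  push_cast at hb
  unfold dt at h
  have h1 : w.1 = (s * w.1 + t * w.2) * v.1 := by
    have : w.1 * 1 = w.1 * (v.1 * s + v.2 * t) := by rw [← hb]
    linear_combination this - t * h
  have h2 : w.2 = (s * w.1 + t * w.2) * v.2 := by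
    have : w.2 * 1 = w.2 * (v.1 * s + v.2 * t) := by rw [← hb]
    linear_combination this + s * h
  set m := s * w.1 + t * w.2 with hm
  have h3 : m ∣ 1 := by
    have h4 : m ∣ (Int.gcd w.1 w.2 : ℤ) := Int.dvd_coe_gcd ⟨v.1, h1⟩ ⟨v.2, h2⟩
    rw [hw] at h4
    exact_mod_cast h4
  rcases Int.isUnit_iff.1 (isUnit_of_dvd_one h3) with h5 | h5
  · left
    rw [h5] at h1 h2
    exact Prod.ext (by linarith) (by linarith)
  · right
    rw [h5] at h1 h2
    refine Prod.ext ?_ ?_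
    · rw [Prod.fst_neg]
      linarith
    · rw [Prod.snd_neg]
      linarith

theorem mm1_neg_ml (o z : El) : ml b c o (-z) = -ml b c o z := by
  refine Prod.ext ?_ ?_
  · simp only [ml, Prod.fst_neg, Prod.snd_neg]; ring
  · simp only [ml, Prod.fst_neg, Prod.snd_neg]; ring

theorem mm1_nm_neg (z : El) : nm b c (-z) = nm b c z := by
  simp only [nm, Prod.fst_neg, Prod.snd_neg]; ring

theorem mm1_Pm_unit {o z : El} (ho : nm b c o = 1) (hz : Pm z) : Pm (ml b c o z) := by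
  unfold Pm at hz ⊢
  have h1 := sba_gcd_dvd (b := b) (c := c) (cj b o) (ml b c o z)
  rw [sba_cj_ml ho, hz] at h1
  exact Nat.dvd_one.1 h1

/-- the primitive parts of a parallel pair in the window -/
theorem mm1_prim {z z' : El} (hz : A.wd z) (hz' : A.wd z') (pz : Pm z) (pz' : Pm z')
    (h : mm1_R A z z') : (z' = z ∨ z' = A.rp (-z)) ∧ nm b c z' = nm b c z := by
  obtain ⟨o, ho, h⟩ := h
  have hnz := A.wd_nm _ hz
  rcases mm1_par (mm1_Pm_unit ho.1 pz) pz' h with h1 | h1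
  · refine ⟨Or.inl ?_, ?_⟩
    · rw [← A.rp_self z' hz', ← h1, ho.2 z hnz, A.rp_self z hz]
    · rw [← h1, nm_ml, ho.1, one_mul]
  · have h2 : z' = ml b c o (-z) := by rw [mm1_neg_ml, h1, neg_neg]
    refine ⟨Or.inr ?_, ?_⟩
    · rw [← A.rp_self z' hz', h2, ho.2 (-z) (by rw [mm1_nm_neg]; exact hnz)]
    · rw [h2, nm_ml, ho.1, one_mul, mm1_nm_neg]

theorem mm1_base (A : Ang b c) (M : ℕ) (hM : 1 ≤ M) : ∃ C : ℝ, 1 ≤ C ∧
    ∀ (B : Finset ℕ) (π : ℕ → El) (x x' : ℝ), 0 ≤ x → 0 ≤ x' →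
      ((mm1_P A M B π 0 0 x x').card : ℝ) ≤ C * Real.sqrt (x * x') := by
  classical
  obtain ⟨C₁, hC₁, hPS⟩ := PS_card A
  obtain ⟨K, hK, hsm⟩ := mm1_smooth M hM
  have hCK : 1 ≤ 2 * C₁ * K ^ 2 := by
    have h1 : 1 ≤ K ^ 2 := one_le_pow₀ hK
    nlinarith
  refine ⟨2 * C₁ * K ^ 2, hCK, ?_⟩
  intro B π x x' hx hx'
  set e0 : Fin 0 → ℕ := fun i => i.elim0 with he0
  have hcov : mm1_P A M B π 0 0 x x' ⊆ (mm1_F M ⌊x⌋₊ ×ˢ mm1_F M ⌊x'⌋₊).biUnion (fun t =>
      (PS A 1 (fun _ => True) (min (x / (t.1 : ℝ) ^ 2) (x' / (t.2 : ℝ) ^ 2))).image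
        (fun z => ((e0, sm t.1 z), (e0, sm t.2 z))) ∪
      (PS A 1 (fun _ => True) (min (x / (t.1 : ℝ) ^ 2) (x' / (t.2 : ℝ) ^ 2))).image
        (fun z => ((e0, sm t.1 z), (e0, sm t.2 (A.rp (-z)))))) := by
    rintro ⟨⟨q, w⟩, ⟨q', w'⟩⟩ ht
    rw [mem_mm1_P] at ht
    obtain ⟨⟨-, hw⟩, ⟨-, hw'⟩, hR⟩ := ht
    simp only at hw hw' hR
    rw [mem_PS] at hw hw'
    obtain ⟨w1, w2, -, w3⟩ := hw
    obtain ⟨v1, v2, -, v3⟩ := hw'
    obtain ⟨j, z, hj, hz, pz, ez⟩ := prim_part A w1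
    obtain ⟨j', z', hj', hz', pz', ez'⟩ := prim_part A v1
    have hR' : mm1_R A z z' := by
      have h1 : mm1_R A (sm j z) (sm j' z') := by
        rw [← ez, ← ez']
        exact hR
      rw [mm1_R_sm_left hj, mm1_R_sm_right hj'] at h1
      exact h1
    obtain ⟨hzz, hnn⟩ := mm1_prim hz hz' pz pz' hR'
    have hnz : (1 : ℝ) ≤ (nm b c z : ℝ) := by
      have := A.wd_nm _ hz
      exact_mod_cast this
    have dsm : ∀ (l j : ℕ) (z : El), l ∣ j → dv l (sm j z) := by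
      intro l j z hl
      have hl' : (l : ℤ) ∣ (j : ℤ) := Int.natCast_dvd_natCast.2 hl
      exact ⟨hl'.mul_right _, hl'.mul_right _⟩
    have n1 : (j : ℝ) ^ 2 * (nm b c z : ℝ) ≤ x := by
      have : nm b c w = (j : ℤ) ^ 2 * nm b c z := by rw [ez, sba_nm_sm]
      have h1 : (nm b c w : ℝ) = (j : ℝ) ^ 2 * (nm b c z : ℝ) := by exact_mod_cast this
      rw [← h1]
      exact w2
    have n2 : (j' : ℝ) ^ 2 * (nm b c z : ℝ) ≤ x' := by
      have : nm b c w' = (j' : ℤ) ^ 2 * nm b c z := by rw [ez', sba_nm_sm, hnn]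
      have h1 : (nm b c w' : ℝ) = (j' : ℝ) ^ 2 * (nm b c z : ℝ) := by exact_mod_cast this
      rw [← h1]
      exact v2
    have hjR : (1 : ℝ) ≤ (j : ℝ) := by exact_mod_cast hj
    have hjR' : (1 : ℝ) ≤ (j' : ℝ) := by exact_mod_cast hj'
    have hjx : (j : ℝ) ≤ x := by
      have h1 : (j : ℝ) ≤ (j : ℝ) ^ 2 := by nlinarith
      have h2 : (j : ℝ) ^ 2 * 1 ≤ (j : ℝ) ^ 2 * (nm b c z : ℝ) :=
        mul_le_mul_of_nonneg_left hnz (by positivity)
      linarith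
    have hjx' : (j' : ℝ) ≤ x' := by
      have h1 : (j' : ℝ) ≤ (j' : ℝ) ^ 2 := by nlinarith
      have h2 : (j' : ℝ) ^ 2 * 1 ≤ (j' : ℝ) ^ 2 * (nm b c z : ℝ) :=
        mul_le_mul_of_nonneg_left hnz (by positivity)
      linarith
    rw [Finset.mem_biUnion]
    refine ⟨(j, j'), ?_, ?_⟩
    · rw [Finset.mem_product, mem_mm1_F, mem_mm1_F]
      refine ⟨⟨⟨hj, Nat.le_floor hjx⟩, fun l hl hlj => w3 l hl ?_⟩,
        ⟨⟨hj', Nat.le_floor hjx'⟩, fun l hl hlj => v3 l hl ?_⟩⟩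
      · rw [ez]
        exact dsm l j z hlj
      · rw [ez']
        exact dsm l j' z' hlj
    · have hzm : z ∈ PS A 1 (fun _ => True)
          (min (x / ((j, j').1 : ℝ) ^ 2) (x' / ((j, j').2 : ℝ) ^ 2)) := by
        rw [mem_PS]
        refine ⟨hz, le_min ?_ ?_, trivial, ?_⟩
        · rw [le_div_iff₀ (by positivity)]
          linarith
        · rw [le_div_iff₀ (by positivity)]
          linarith
        · intro l hl hd
          have h1 : (l : ℤ) ∣ (Int.gcd z.1 z.2 : ℤ) := Int.dvd_coe_gcd hd.1 hd.2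
          unfold Pm at pz
          rw [pz] at h1
          exact_mod_cast h1
      have hq : q = e0 := Subsingleton.elim _ _
      have hq' : q' = e0 := Subsingleton.elim _ _
      rw [Finset.mem_union, Finset.mem_image, Finset.mem_image]
      rcases hzz with h1 | h1
      · left
        refine ⟨z, hzm, ?_⟩
        rw [hq, hq', ez, ez', h1]
      · right
        refine ⟨z, hzm, ?_⟩
        rw [hq, hq', ez, ez', h1]
  have h1 : ((mm1_P A M B π 0 0 x x').card : ℝ) ≤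
      ∑ t ∈ mm1_F M ⌊x⌋₊ ×ˢ mm1_F M ⌊x'⌋₊,
        2 * C₁ * Real.sqrt (x * x') * (1 / (t.1 : ℝ) * (1 / (t.2 : ℝ))) := by
    have h2 := (Finset.card_le_card hcov).trans Finset.card_biUnion_le
    have h3 : ((mm1_P A M B π 0 0 x x').card : ℝ) ≤ ((∑ t ∈ mm1_F M ⌊x⌋₊ ×ˢ mm1_F M ⌊x'⌋₊,
        ((PS A 1 (fun _ => True) (min (x / (t.1 : ℝ) ^ 2) (x' / (t.2 : ℝ) ^ 2))).image
        (fun z => ((e0, sm t.1 z), (e0, sm t.2 z))) ∪
      (PS A 1 (fun _ => True) (min (x / (t.1 : ℝ) ^ 2) (x' / (t.2 : ℝ) ^ 2))).image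
        (fun z => ((e0, sm t.1 z), (e0, sm t.2 (A.rp (-z)))))).card : ℕ) : ℝ) := by
      exact_mod_cast h2
    rw [Nat.cast_sum] at h3
    refine h3.trans (Finset.sum_le_sum fun t ht => ?_)
    rw [Finset.mem_product, mem_mm1_F, mem_mm1_F] at ht
    have t1 : (1 : ℝ) ≤ (t.1 : ℝ) := by exact_mod_cast ht.1.1.1
    have t2 : (1 : ℝ) ≤ (t.2 : ℝ) := by exact_mod_cast ht.2.1.1
    have hmin0 : 0 ≤ min (x / (t.1 : ℝ) ^ 2) (x' / (t.2 : ℝ) ^ 2) := by positivity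
    have h4 := hPS 1 (fun _ => True) _ hmin0
    have h5 : min (x / (t.1 : ℝ) ^ 2) (x' / (t.2 : ℝ) ^ 2) ≤
        Real.sqrt (x * x') * (1 / (t.1 : ℝ) * (1 / (t.2 : ℝ))) := by
      have e1 : Real.sqrt (x * x') * (1 / (t.1 : ℝ) * (1 / (t.2 : ℝ))) =
          Real.sqrt ((x / (t.1 : ℝ) ^ 2) * (x' / (t.2 : ℝ) ^ 2)) := by
        have e2 : (x / (t.1 : ℝ) ^ 2) * (x' / (t.2 : ℝ) ^ 2) =
            (x * x') * (1 / (t.1 : ℝ) * (1 / (t.2 : ℝ))) ^ 2 := by
          field_simp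
        rw [e2, Real.sqrt_mul (show 0 ≤ x * x' by positivity) ((1 / (t.1 : ℝ) * (1 / (t.2 : ℝ))) ^ 2),
          Real.sqrt_sq (show 0 ≤ 1 / (t.1 : ℝ) * (1 / (t.2 : ℝ)) by positivity)]
      rw [e1]
      apply Real.le_sqrt_of_sq_le
      rw [sq]
      exact mul_le_mul (min_le_left _ _) (min_le_right _ _) hmin0 (by positivity)
    have h6 : ((((PS A 1 (fun _ => True) (min (x / (t.1 : ℝ) ^ 2) (x' / (t.2 : ℝ) ^ 2))).image
        (fun z => ((e0, sm t.1 z), (e0, sm t.2 z))) ∪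
      (PS A 1 (fun _ => True) (min (x / (t.1 : ℝ) ^ 2) (x' / (t.2 : ℝ) ^ 2))).image
        (fun z => ((e0, sm t.1 z), (e0, sm t.2 (A.rp (-z)))))).card : ℕ) : ℝ) ≤
        2 * ((PS A 1 (fun _ => True) (min (x / (t.1 : ℝ) ^ 2) (x' / (t.2 : ℝ) ^ 2))).card : ℝ) := by
      have h7 := (Finset.card_union_le
        ((PS A 1 (fun _ => True) (min (x / (t.1 : ℝ) ^ 2) (x' / (t.2 : ℝ) ^ 2))).image
          (fun z => ((e0, sm t.1 z), (e0, sm t.2 z))))
        ((PS A 1 (fun _ => True) (min (x / (t.1 : ℝ) ^ 2) (x' / (t.2 : ℝ) ^ 2))).image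
          (fun z => ((e0, sm t.1 z), (e0, sm t.2 (A.rp (-z))))))).trans
        (add_le_add Finset.card_image_le Finset.card_image_le)
      rw [← two_mul] at h7
      exact_mod_cast h7
    calc _ ≤ 2 * ((PS A 1 (fun _ => True)
          (min (x / (t.1 : ℝ) ^ 2) (x' / (t.2 : ℝ) ^ 2))).card : ℝ) := h6
      _ ≤ 2 * (C₁ * min (x / (t.1 : ℝ) ^ 2) (x' / (t.2 : ℝ) ^ 2)) := by linarith
      _ ≤ 2 * (C₁ * (Real.sqrt (x * x') * (1 / (t.1 : ℝ) * (1 / (t.2 : ℝ))))) := by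
          have := mul_le_mul_of_nonneg_left h5 (by linarith : (0 : ℝ) ≤ C₁)
          linarith
      _ = _ := by ring
  refine h1.trans ?_
  rw [← Finset.mul_sum, Finset.sum_product]
  have e3 : ∑ j ∈ mm1_F M ⌊x⌋₊, ∑ j' ∈ mm1_F M ⌊x'⌋₊, (1 / (j : ℝ) * (1 / (j' : ℝ))) =
      (∑ j ∈ mm1_F M ⌊x⌋₊, 1 / (j : ℝ)) * ∑ j' ∈ mm1_F M ⌊x'⌋₊, 1 / (j' : ℝ) := by
    rw [Finset.sum_mul_sum]
  simp only at e3 ⊢
  rw [e3]
  have h8 : (∑ j ∈ mm1_F M ⌊x⌋₊, 1 / (j : ℝ)) * ∑ j' ∈ mm1_F M ⌊x'⌋₊, 1 / (j' : ℝ) ≤ K * K :=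
    mul_le_mul (hsm _) (hsm _) (Finset.sum_nonneg fun j _ => by positivity) (by linarith)
  calc 2 * C₁ * Real.sqrt (x * x') * ((∑ j ∈ mm1_F M ⌊x⌋₊, 1 / (j : ℝ)) *
        ∑ j' ∈ mm1_F M ⌊x'⌋₊, 1 / (j' : ℝ)) ≤ 2 * C₁ * Real.sqrt (x * x') * (K * K) :=
        mul_le_mul_of_nonneg_left h8 (by positivity)
    _ = 2 * C₁ * K ^ 2 * Real.sqrt (x * x') := by ring

/-! ### the sums over `p` -/

theorem mm1_card_B (hB : TP A M B k₀ r π) {P : ℝ} (hP : 1 ≤ P)
    (h : ∀ p ∈ B, P < (p : ℝ) ∧ (p : ℝ) ≤ 2 * P) : (B.card : ℝ) ≤ 2 * P := by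
  have h1 : B ⊆ Finset.Icc 1 ⌊2 * P⌋₊ := by
    intro p hp
    rw [Finset.mem_Icc]
    exact ⟨(hB.prime p hp).one_le, Nat.le_floor (h p hp).2⟩
  have h2 := Finset.card_le_card h1
  rw [Nat.card_Icc] at h2
  have h3 : B.card ≤ ⌊2 * P⌋₊ := by omega
  calc (B.card : ℝ) ≤ (⌊2 * P⌋₊ : ℝ) := by exact_mod_cast h3
    _ ≤ 2 * P := Nat.floor_le (by linarith)

theorem mm1_sum_p (hM : 1 ≤ M) (hB : TP A M B k₀ r π) {P : ℝ} (hP : 1 ≤ P)
    (h : ∀ p ∈ B, P < (p : ℝ) ∧ (p : ℝ) ≤ 2 * P) {y : ℝ} (hy : 0 ≤ y) :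
    ∑ p ∈ B, Real.sqrt (k₀ * y / p) ≤ 2 * M * Real.sqrt P * Real.sqrt y := by
  have hs : 0 < Real.sqrt P := Real.sqrt_pos.2 (by linarith)
  have hss : Real.sqrt P * Real.sqrt P = P := Real.mul_self_sqrt (by linarith)
  have hkM : (k₀ : ℝ) ≤ M := by exact_mod_cast Nat.le_of_dvd hM hB.kM
  have hM1 : (1 : ℝ) ≤ M := by exact_mod_cast hM
  have h1 : ∀ p ∈ B, Real.sqrt (k₀ * y / p) ≤ M * Real.sqrt y / Real.sqrt P := by
    intro p hp
    have e : M * Real.sqrt y / Real.sqrt P = Real.sqrt ((M : ℝ) ^ 2 * y / P) := by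
      rw [Real.sqrt_div (by positivity), Real.sqrt_mul (by positivity),
        Real.sqrt_sq (by positivity)]
    rw [e]
    apply Real.sqrt_le_sqrt
    apply div_le_div₀ (by positivity) _ (by linarith) (h p hp).1.le
    apply mul_le_mul_of_nonneg_right _ hy
    nlinarith
  calc ∑ p ∈ B, Real.sqrt (k₀ * y / p) ≤ ∑ _p ∈ B, M * Real.sqrt y / Real.sqrt P :=
        Finset.sum_le_sum h1
    _ = (B.card : ℝ) * (M * Real.sqrt y / Real.sqrt P) := by
        rw [Finset.sum_const, nsmul_eq_mul]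
    _ ≤ (2 * P) * (M * Real.sqrt y / Real.sqrt P) :=
        mul_le_mul_of_nonneg_right (mm1_card_B hB hP h) (by positivity)
    _ = 2 * M * Real.sqrt P * Real.sqrt y := by
        have e : (2 * P) * (M * Real.sqrt y / Real.sqrt P) =
            (2 * (Real.sqrt P * Real.sqrt P)) * (M * Real.sqrt y / Real.sqrt P) := by rw [hss]
        rw [e]
        field_simp

theorem mm1_zero {C : ℝ} (hC0 : 0 ≤ C) (hM : 1 ≤ M) (hB : TP A M B k₀ r π)
    (hC : ∀ x x' : ℝ, 0 ≤ x → 0 ≤ x' →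
      ((mm1_P A M B π 0 0 x x').card : ℝ) ≤ C * Real.sqrt (x * x')) {P : ℝ} (hP : 1 ≤ P)
    (h : ∀ p ∈ B, P < (p : ℝ) ∧ (p : ℝ) ≤ 2 * P) (l : ℕ) : ∀ {x x' : ℝ}, 0 ≤ x → 0 ≤ x' →
    ((mm1_P A M B π l 0 x x').card : ℝ) ≤
      C * Real.sqrt (x * x') * (6 * M * Real.sqrt P) ^ l := by
  induction l with
  | zero =>
    intro x x' hx hx'
    simpa using hC x x' hx hx'
  | succ l ih =>
    intro x x' hx hx'
    have h1 : ((mm1_P A M B π (l + 1) 0 x x').card : ℝ) ≤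
        ∑ p ∈ B, (((mm1_P A M B π l 0 (k₀ * x / p) x').card : ℝ) +
          ((mm1_P A M B π l 0 x (k₀ * x' / p)).card : ℝ)) := by
      exact_mod_cast mm1_rec_zero hB l x x'
    have hs : 0 < Real.sqrt P := Real.sqrt_pos.2 (by linarith)
    set Am := 6 * (M : ℝ) * Real.sqrt P with hA
    have h2 : ∀ p ∈ B, (((mm1_P A M B π l 0 (k₀ * x / p) x').card : ℝ) +
          ((mm1_P A M B π l 0 x (k₀ * x' / p)).card : ℝ)) ≤
        (2 * C * Am ^ l) * Real.sqrt (k₀ * (x * x') / p) := by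
      intro p _
      have h3 := ih (x := k₀ * x / p) (x' := x') (by positivity) hx'
      have h4 := ih (x := x) (x' := k₀ * x' / p) hx (by positivity)
      have e3 : k₀ * x / p * x' = k₀ * (x * x') / p := by ring
      have e4 : x * (k₀ * x' / p) = k₀ * (x * x') / p := by ring
      rw [e3] at h3
      rw [e4] at h4
      linarith
    have h5 := mm1_sum_p hM hB hP h (y := x * x') (by positivity)
    calc ((mm1_P A M B π (l + 1) 0 x x').card : ℝ)
        ≤ ∑ p ∈ B, (2 * C * Am ^ l) * Real.sqrt (k₀ * (x * x') / p) :=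
          h1.trans (Finset.sum_le_sum h2)
      _ = (2 * C * Am ^ l) * ∑ p ∈ B, Real.sqrt (k₀ * (x * x') / p) := by
          rw [Finset.mul_sum]
      _ ≤ (2 * C * Am ^ l) * (2 * M * Real.sqrt P * Real.sqrt (x * x')) :=
          mul_le_mul_of_nonneg_left h5 (by positivity)
      _ ≤ C * Real.sqrt (x * x') * Am ^ (l + 1) := by
          rw [pow_succ, hA]
          have h6 : 0 ≤ C * (6 * (M : ℝ) * Real.sqrt P) ^ l * Real.sqrt (x * x') *
              (M * Real.sqrt P) := by positivity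
          nlinarith

theorem mm1_le {C : ℝ} (hC0 : 0 ≤ C) (hM : 1 ≤ M) (hB : TP A M B k₀ r π)
    (hC : ∀ x x' : ℝ, 0 ≤ x → 0 ≤ x' →
      ((mm1_P A M B π 0 0 x x').card : ℝ) ≤ C * Real.sqrt (x * x')) {P : ℝ} (hP : 1 ≤ P)
    (h : ∀ p ∈ B, P < (p : ℝ) ∧ (p : ℝ) ≤ 2 * P) (l : ℕ) : ∀ (l' : ℕ) {x x' : ℝ}, 0 ≤ x →
    0 ≤ x' → ((mm1_P A M B π l l' x x').card : ℝ) ≤
      C * Real.sqrt (x * x') * (6 * M * Real.sqrt P) ^ (l + l') * l'.factorial := by
  have hs : 0 < Real.sqrt P := Real.sqrt_pos.2 (by linarith)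
  have hss : Real.sqrt P * Real.sqrt P = P := Real.mul_self_sqrt (by linarith)
  have hM1 : (1 : ℝ) ≤ M := by exact_mod_cast hM
  induction l with
  | zero =>
    intro l' x x' hx hx'
    rw [mm1_swap]
    have h1 := mm1_zero hC0 hM hB hC hP h l' hx' hx
    rw [mul_comm x' x] at h1
    rw [zero_add]
    have h2 : (1 : ℝ) ≤ l'.factorial := by exact_mod_cast Nat.succ_le_of_lt (Nat.factorial_pos l')
    have h3 : 0 ≤ C * Real.sqrt (x * x') * (6 * M * Real.sqrt P) ^ l' := by positivity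
    exact h1.trans (le_mul_of_one_le_right h3 h2)
  | succ l ih =>
    intro l' x x' hx hx'
    rcases Nat.eq_zero_or_pos l' with h0 | h0
    · subst h0
      have h1 := mm1_zero hC0 hM hB hC hP h (l + 1) hx hx'
      simpa using h1
    obtain ⟨l', rfl⟩ : ∃ k, l' = k + 1 := ⟨l' - 1, by omega⟩
    have h1 : ((mm1_P A M B π (l + 1) (l' + 1) x x').card : ℝ) ≤
      ∑ p ∈ B, (((mm1_P A M B π l (l' + 1) (k₀ * x / p) x').card : ℝ) +
        (((l' : ℝ) + 1) * ((mm1_P A M B π l l' x x').card : ℝ) +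
          ((mm1_P A M B π l (l' + 1) x (k₀ * x' / p)).card : ℝ))) := by
      exact_mod_cast mm1_rec hB l l' x x'
    set F : ℝ := ((l' + 1).factorial : ℝ) with hF
    have hF' : F = ((l' : ℝ) + 1) * (l'.factorial : ℝ) := by
      rw [hF, Nat.factorial_succ]; push_cast; ring
    have hF0 : 0 ≤ F := by positivity
    set Am := 6 * (M : ℝ) * Real.sqrt P with hA
    have hA0 : 0 ≤ Am := by positivity
    have h2 : ∀ p ∈ B, (((mm1_P A M B π l (l' + 1) (k₀ * x / p) x').card : ℝ) +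
        (((l' : ℝ) + 1) * ((mm1_P A M B π l l' x x').card : ℝ) +
          ((mm1_P A M B π l (l' + 1) x (k₀ * x' / p)).card : ℝ))) ≤
        (2 * C * Am ^ (l + l' + 1) * F) * Real.sqrt (k₀ * (x * x') / p) +
          C * Real.sqrt (x * x') * Am ^ (l + l') * F := by
      intro p _
      have h3 := ih (l' + 1) (x := k₀ * x / p) (x' := x') (by positivity) hx'
      have h4 := ih (l' + 1) (x := x) (x' := k₀ * x' / p) hx (by positivity)
      have h5 := ih l' hx hx'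
      have e3 : k₀ * x / p * x' = k₀ * (x * x') / p := by ring
      have e4 : x * (k₀ * x' / p) = k₀ * (x * x') / p := by ring
      rw [e3] at h3
      rw [e4] at h4
      rw [← hF, ← add_assoc] at h3 h4
      have h6 : ((l' : ℝ) + 1) * ((mm1_P A M B π l l' x x').card : ℝ) ≤
          C * Real.sqrt (x * x') * Am ^ (l + l') * F := by
        rw [hF']
        have := mul_le_mul_of_nonneg_left h5 (by positivity : (0:ℝ) ≤ (l' : ℝ) + 1)
        linarith
      linarith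
    have h5 := mm1_sum_p hM hB hP h (y := x * x') (by positivity)
    have h7 := mm1_card_B hB hP h
    calc ((mm1_P A M B π (l + 1) (l' + 1) x x').card : ℝ)
        ≤ ∑ p ∈ B, ((2 * C * Am ^ (l + l' + 1) * F) * Real.sqrt (k₀ * (x * x') / p) +
          C * Real.sqrt (x * x') * Am ^ (l + l') * F) :=
          h1.trans (Finset.sum_le_sum h2)
      _ = (2 * C * Am ^ (l + l' + 1) * F) * ∑ p ∈ B, Real.sqrt (k₀ * (x * x') / p) +
          B.card * (C * Real.sqrt (x * x') * Am ^ (l + l') * F) := by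
          rw [Finset.sum_add_distrib, Finset.mul_sum, Finset.sum_const, nsmul_eq_mul]
      _ ≤ (2 * C * Am ^ (l + l' + 1) * F) * (2 * M * Real.sqrt P * Real.sqrt (x * x')) +
          (2 * (Real.sqrt P * Real.sqrt P)) * (C * Real.sqrt (x * x') * Am ^ (l + l') * F) := by
          rw [hss]
          exact add_le_add (mul_le_mul_of_nonneg_left h5 (by positivity))
            (mul_le_mul_of_nonneg_right h7 (by positivity))
      _ = (C * Real.sqrt (x * x') * Am ^ (l + l') * F) *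
          (4 * M * Real.sqrt P * Am + 2 * (Real.sqrt P * Real.sqrt P)) := by
          rw [pow_succ]; ring
      _ ≤ (C * Real.sqrt (x * x') * Am ^ (l + l') * F) * Am ^ 2 := by
          apply mul_le_mul_of_nonneg_left _ (by positivity)
          rw [hA]
          have h8 : Real.sqrt P * Real.sqrt P ≤
              (M : ℝ) ^ 2 * (Real.sqrt P * Real.sqrt P) := by
            apply le_mul_of_one_le_left (by positivity)
            exact one_le_pow₀ hM1
          nlinarith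
      _ = C * Real.sqrt (x * x') * Am ^ (l + 1 + (l' + 1)) * F := by
          have e : l + 1 + (l' + 1) = (l + l') + 2 := by ring
          rw [e, pow_add _ (l + l') 2]
          ring

end mm1

/-- the count for products which are parallel up to units of the window -/
theorem mm1_count {b c : ℤ} (A : Ang b c) (M : ℕ) (hM : 1 ≤ M) : ∃ C : ℝ, 1 ≤ C ∧
    ∀ (P : ℝ) (B : Finset ℕ) (k₀ : ℕ) (r : El) (π : ℕ → El), TP A M B k₀ r π → 1 ≤ P →
    (∀ p ∈ B, P < (p : ℝ) ∧ (p : ℝ) ≤ 2 * P) → ∀ (l l' : ℕ) (x x' : ℝ), 0 ≤ x → 0 ≤ x' →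
      ((mm1_P A M B π l l' x x').card : ℝ) ≤
        C * Real.sqrt (x * x') * (C * Real.sqrt P) ^ (l + l') * l'.factorial := by
  obtain ⟨C₀, hC₀, hb⟩ := mm1_base A M hM
  refine ⟨max C₀ (6 * M), le_max_of_le_left hC₀, ?_⟩
  intro P B k₀ r π hB hP h l l' x x' hx hx'
  have h1 := mm1_le (by linarith) hM hB (hb B π) hP h l l' hx hx'
  refine h1.trans ?_
  have hm1 : C₀ ≤ max C₀ (6 * M) := le_max_left _ _
  have hm2 : 6 * (M : ℝ) ≤ max C₀ (6 * M) := le_max_right _ _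
  have hp : (6 * (M : ℝ) * Real.sqrt P) ^ (l + l') ≤ (max C₀ (6 * M) * Real.sqrt P) ^ (l + l') :=
    pow_le_pow_left₀ (by positivity) (mul_le_mul_of_nonneg_right hm2 (Real.sqrt_nonneg _)) _
  apply mul_le_mul_of_nonneg_right _ (Nat.cast_nonneg _)
  exact mul_le_mul (mul_le_mul_of_nonneg_right hm1 (Real.sqrt_nonneg _)) hp (by positivity)
    (by positivity)

theorem par_count_pr {b c : ℤ} (A : Ang b c) (M : ℕ) (hM : 1 ≤ M) : ∃ C : ℝ, 1 ≤ C ∧
    ∀ (P : ℝ) (B : Finset ℕ) (k₀ : ℕ) (r : El) (π : ℕ → El), TP A M B k₀ r π → 1 ≤ P →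
    (∀ p ∈ B, P < (p : ℝ) ∧ (p : ℝ) ≤ 2 * P) → ∀ (l l' : ℕ) (x x' : ℝ), 0 ≤ x → 0 ≤ x' →
      ((ParD A M B π l l' x x').card : ℝ) ≤
        C * Real.sqrt (x * x') * (C * Real.sqrt P) ^ (l + l') * l'.factorial := by
  obtain ⟨C, hC, h⟩ := mm1_count A M hM
  refine ⟨C, hC, ?_⟩
  intro P B k₀ r π hB hP hb l l' x x' hx hx'
  refine le_trans ?_ (h P B k₀ r π hB hP hb l l' x x' hx hx')
  exact_mod_cast Finset.card_le_card (mm1_sub l l' x x')

end Pool.Agent.AQM
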